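import Pool.Agent.H96.EM.C
import Pool.Agent.H96.EM.B
import Pool.Graph.R_seed8.R460.GQ.Main

set_option autoImplicit false

/-! Prime pairs in progressions: families of differences of small energy in the residue classes of every modulus. -/

namespace Pool.Agent.H96.ED

open Finset
open Pool.Agent.TH935.GF (En)
open Pool.Agent.R460.GS
open Pool.Agent.R460.GH
open Pool.Agent.R460.GQ
open Pool.Agent.R460.GP (cvd gcd_neg_val)
open Pool.Agent.H373R2.T7 (lamz Vz pz lamI lamzI)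
open Pool.Agent.Y883.T3 (lsh)
open Pool.Agent.Y883.GJ
open Pool.Agent.Y614.GJ.Core (ev_log card_above gcd_above)
open Pool.Agent.H96.EM (fam_cvd En_sub)

lemma En_neg (h : ℕ) {ι : Type} [Fintype ι] (v : ι → ℤ) : En h (fun i => -v i) = En h v := by
  classical
  unfold En
  congr 1
  simp only [sum_neg_distrib, neg_inj]

/-- one class modulo `Q`, a family -/
lemma one_fam {N X Q q₀ a₀ Tg s z r h : ℕ} [NeZero Q] (hh : 1 ≤ h) (hX : X ≤ N) (c : ZMod Q) {ι : Type} [Fintype ι]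
    (d : ι → ℤ) (S : Finset ι) {R W t lam μ : ℝ} (hlam : 0 < lam) (hμ : 0 < μ)
    (hH : ∀ i ∈ S, 1 ≤ d i ∧ d i ≤ X ∧ (d i : ZMod Q) = c)
    (hF : ∑ b ∈ Icc 1 N, ‖res q₀ a₀ LA b‖ ^ 2 ≤ W) (hG : ∑ b ∈ Icc 1 N, ‖FF z r b‖ ^ 2 ≤ W)
    (hms : ∀ y : ℕ, y ≤ N → ∑ n ∈ (Icc (-(N : ℤ)) N).filter (fun n : ℤ => (n : ZMod Q) = -c),
      ‖cvd (res q₀ a₀ LA) (FF z r) y N n‖ ^ 2 ≤ R)
    (hbig : ∀ i ∈ S, ∃ j ∈ range (Tg + 1),
      t ≤ ‖cvd (res q₀ a₀ LA) (FF z r) (min (j * s) X) N (-(d i))‖) :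
    (S.card : ℝ) * t ≤ (Tg + 1) * (lam * W + μ / 2 * R + 1 / (2 * μ) * ((En h d : ℝ) / lam ^ (2 * h - 2))) := by
  classical
  obtain ⟨V, hV⟩ : ∃ V : ℕ → ι → ℝ, V = fun j i => ‖cvd (res q₀ a₀ LA) (FF z r) (min (j * s) X) N (-(d i))‖ := ⟨_, rfl⟩
  have hV0 : ∀ j i, 0 ≤ V j i := fun j i => by rw [hV]; positivity
  have h1 : ∀ i ∈ S, t ≤ ∑ j ∈ range (Tg + 1), V j i := by
    intro i hi
    obtain ⟨j, hj, h2⟩ := hbig i hi
    have h3 : V j i ≤ ∑ j ∈ range (Tg + 1), V j i := single_le_sum (f := fun j => V j i) (fun j _ => hV0 j _) hj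
    refine le_trans ?_ h3
    rw [hV]
    exact h2
  have h2 : ∀ j, ∑ i ∈ S, V j i ≤ lam * W + μ / 2 * R + 1 / (2 * μ) * ((En h d : ℝ) / lam ^ (2 * h - 2)) := by
    intro j
    have e1 : ∑ i ∈ S, V j i = ∑ i : {i // i ∈ S}, V j i := (sum_coe_sort S (fun i => V j i)).symm
    rw [e1, hV]
    have key := fam_cvd (res q₀ a₀ LA) (FF z r) (min (j * s) X) N N Q h hh (-c) ((min_le_right _ _).trans hX) le_rfl W R
      hF hG (hms _ ((min_le_right _ _).trans hX)) (fun i : {i // i ∈ S} => -d i) (fun i => by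
        obtain ⟨g1, g2, g3⟩ := hH i i.2
        refine ⟨by push_cast; rw [g3], ?_, ?_⟩
        · have : (X : ℤ) ≤ N := by exact_mod_cast hX
          omega
        · have : (0 : ℤ) ≤ N := by positivity
          omega) lam μ hlam hμ
    refine key.trans ?_
    rw [En_neg h (fun i : {i // i ∈ S} => d i)]
    have g4 : (En h (fun i : {i // i ∈ S} => d i) : ℝ) ≤ En h d := by exact_mod_cast En_sub h d S
    have : 0 < lam ^ (2 * h - 2) := by positivity
    gcongr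
  calc (S.card : ℝ) * t = ∑ _i ∈ S, t := by rw [sum_const, nsmul_eq_mul]
    _ ≤ ∑ i ∈ S, ∑ j ∈ range (Tg + 1), V j i := sum_le_sum h1
    _ = ∑ j ∈ range (Tg + 1), ∑ i ∈ S, V j i := sum_comm
    _ ≤ ∑ _j ∈ range (Tg + 1), (lam * W + μ / 2 * R + 1 / (2 * μ) * ((En h d : ℝ) / lam ^ (2 * h - 2))) :=
        sum_le_sum fun j _ => h2 j
    _ = _ := by rw [sum_const, card_range, nsmul_eq_mul]; push_cast; ring

theorem gd_main (hErr : ErrQStm) (ρ : ℝ) (hρ : 0 < ρ) (hρ1 : ρ ≤ 1 / 3) (A B C T C₀ h : ℕ) (hh : 1 ≤ h) :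
    ∃ X₀ : ℕ, ∀ X : ℕ, X₀ ≤ X → ∀ q : ℕ, 1 ≤ q → (q : ℝ) ≤ (X : ℝ) ^ (2 / 3 - ρ) → ∀ b : ℕ,
      (Nat.gcd b q : ℝ) ≤ Real.log X ^ T → ∀ (ι : Type) [Fintype ι] (d : ι → ℤ),
      (En h d : ℝ) * X ≤ Real.log X ^ C₀ * q * (Fintype.card ι : ℝ) ^ (2 * h) →
      ∀ S : Finset ι, (∀ i ∈ S, 1 ≤ d i ∧ (d i : ℝ) ≤ X / Real.log X ^ (C + 4) ∧ 2 ∣ (d i).toNat ∧
        (d i).toNat % q = b % q ∧ ¬ Good1 B C X (d i).toNat) →
      (S.card : ℝ) ≤ Fintype.card ι / Real.log X ^ A := by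
  classical
  obtain ⟨P, hP⟩ : ∃ P, P = A + 3 * B + 2 * C + 20 := ⟨_, rfl⟩
  obtain ⟨K, hK⟩ : ∃ K, K = P + 16 := ⟨_, rfl⟩
  obtain ⟨M, hM⟩ : ∃ M, M = C₀ + K * (2 * h - 2) + P := ⟨_, rfl⟩
  obtain ⟨A', hA'⟩ : ∃ A', A' = M + P := ⟨_, rfl⟩
  obtain ⟨B', hB'⟩ := hErr A' (T + B) B (C + 6) (ρ / 2) (by linarith)
  obtain ⟨E1, hE1⟩ : ∃ E1, E1 = max (B' + 1) (C + 7 + B) := ⟨_, rfl⟩
  obtain ⟨N₁, h1⟩ := hB' (E1 + 1)
  obtain ⟨X₂, h2⟩ := det_one B C E1 (by rw [hE1]; exact le_max_right _ _)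
  obtain ⟨X₃, h3⟩ := Filter.eventually_atTop.1 (ev_log B (s := ρ / 2) (by linarith) (2 ^ B' + 1000))
  refine ⟨N₁ + X₂ + X₃ + 3, fun X hX q hq1 hqX b hb ι _ d hE S hS => ?_⟩
  have hX1 : 1 ≤ X := by omega
  have hX0 : (0 : ℝ) < X := by exact_mod_cast hX1
  have hX1r : (1 : ℝ) ≤ X := by exact_mod_cast hX1
  obtain ⟨hLb, hLp⟩ := h3 X (by omega)
  have c2 := h2 X (by omega)
  obtain ⟨N, hN⟩ : ∃ N, N = 2 * X := ⟨_, rfl⟩
  have hXN : X ≤ N := by omega
  have hNr : (N : ℝ) = 2 * X := by rw [hN]; push_cast; ring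
  have c1 := h1 N (by omega)
  have hL2 : Real.log X ≤ Real.log N := Real.log_le_log hX0 (by exact_mod_cast hXN)
  have hL3 : Real.log N ≤ 2 * Real.log X := by
    rw [hNr, Real.log_mul (by norm_num) hX0.ne']
    have := Real.log_two_lt_d9
    have h5 : (0 : ℝ) < 2 ^ B' := by positivity
    linarith
  obtain ⟨L, hLd⟩ : ∃ L, L = Real.log (X : ℝ) := ⟨_, rfl⟩
  obtain ⟨L', hLd'⟩ : ∃ L', L' = Real.log (N : ℝ) := ⟨_, rfl⟩
  have hbF : ∀ q₀ a₀ : ℕ, 8 ≤ L' → 1 ≤ L' → ∑ n ∈ Icc 1 N, ‖res q₀ a₀ LA n‖ ^ 2 ≤ N * L' ^ 8 := by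
    intro q₀ a₀ h8 h9
    rw [hLd'] at h8 h9 ⊢
    exact bd_sq (bd_res q₀ a₀ (bd_LA h9)) h8
  rw [← hLd] at hLb hLp c2 hb hL2 hL3 hE hS ⊢
  rw [← hLd'] at c1 hL2 hL3
  have h2B : (0 : ℝ) < 2 ^ B' := by positivity
  have hL1000 : 1000 ≤ L := by linarith
  have hL0 : 0 < L := by linarith
  have hL1 : 1 ≤ L := by linarith
  have hL0' : 0 < L' := by linarith
  have hq0 : (0 : ℝ) < q := by exact_mod_cast hq1
  have : NeZero q := ⟨by omega⟩
  -- the trivial case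
  rcases Nat.eq_zero_or_pos (Fintype.card ι) with hI0 | hI1
  · have hSc : S.card = 0 := by
      have := card_le_univ S
      omega
    rw [hSc, hI0]
    simp
  obtain ⟨I, hI⟩ : ∃ I : ℝ, I = Fintype.card ι := ⟨_, rfl⟩
  have hI0 : 0 < I := by rw [hI]; exact_mod_cast hI1
  rw [← hI] at hE ⊢
  -- the parameter `z`
  obtain ⟨z, hz⟩ : ∃ z, z = ⌈L ^ E1⌉₊ := ⟨_, rfl⟩
  have hzlo : L ^ E1 ≤ z := by rw [hz]; exact Nat.le_ceil _
  have hL1B : 1 ≤ L ^ E1 := one_le_pow₀ hL1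
  have hzhi : (z : ℝ) ≤ L ^ (E1 + 1) := by
    have := Nat.ceil_lt_add_one (show 0 ≤ L ^ E1 by positivity)
    rw [← hz] at this
    calc (z : ℝ) ≤ L ^ E1 + 1 := this.le
      _ ≤ L ^ E1 + L ^ E1 := by linarith
      _ = 2 * L ^ E1 := by ring
      _ ≤ L * L ^ E1 := mul_le_mul_of_nonneg_right (by linarith) (by positivity)
      _ = L ^ (E1 + 1) := by ring
  have hzB : L' ^ B' ≤ z := by
    calc L' ^ B' ≤ (2 * L) ^ B' := pow_le_pow_left₀ hL0'.le hL3 _
      _ = 2 ^ B' * L ^ B' := mul_pow _ _ _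
      _ ≤ L * L ^ B' := mul_le_mul_of_nonneg_right (by linarith) (by positivity)
      _ = L ^ (B' + 1) := by ring
      _ ≤ L ^ E1 := pow_le_pow_right₀ hL1 (by rw [hE1]; exact le_max_left _ _)
      _ ≤ z := hzlo
  obtain ⟨r, hPar, hsum, hms⟩ := c1 z hzB (hzhi.trans (pow_le_pow_left₀ hL0.le hL2 _))
  have hbG : ∑ n ∈ Icc 1 N, ‖FF z r n‖ ^ 2 ≤ N * L' ^ 8 := by
    rw [hLd']
    exact bd_sq (bd_FF hPar (by rw [← hLd']; linarith)) (by rw [← hLd']; linarith)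
  -- the grid
  obtain ⟨Tg, hTg⟩ : ∃ Tg, Tg = ⌈L ^ (C + 4)⌉₊ := ⟨_, rfl⟩
  have hT1 : L ^ (C + 4) ≤ Tg := by rw [hTg]; exact Nat.le_ceil _
  have hLV : 1 ≤ L ^ (C + 4) := one_le_pow₀ hL1
  have hT2 : (Tg : ℝ) + 1 ≤ L ^ (C + 5) := by
    have h4 : (Tg : ℝ) < L ^ (C + 4) + 1 := by
      rw [hTg]
      exact Nat.ceil_lt_add_one (by positivity)
    calc (Tg : ℝ) + 1 ≤ 3 * L ^ (C + 4) := by linarith
      _ ≤ L * L ^ (C + 4) := mul_le_mul_of_nonneg_right (by linarith) (by positivity)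
      _ = L ^ (C + 5) := by ring
  obtain ⟨s, hs⟩ : ∃ s, s = X / Tg + 1 := ⟨_, rfl⟩
  obtain ⟨t, ht⟩ : ∃ t : ℝ, t = X / (2 * L ^ (C + 3)) := ⟨_, rfl⟩
  have ht0 : 0 < t := by rw [ht]; positivity
  -- the error from the truncated model
  have htr : L' * ∑ c ∈ Icc 1 N, |lamz z c - lsh z r c| ≤ t := by
    calc L' * ∑ c ∈ Icc 1 N, |lamz z c - lsh z r c| ≤ L' * (N / L' ^ (C + 6)) :=
          mul_le_mul_of_nonneg_left hsum hL0'.le
      _ = N / L' ^ (C + 5) := by rw [pow_succ L' (C + 5)]; field_simp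
      _ ≤ N / L ^ (C + 5) := by
          apply div_le_div_of_nonneg_left (by positivity) (by positivity)
          exact pow_le_pow_left₀ hL0.le hL2 _
      _ ≤ t := by
          rw [ht, hNr, div_le_div_iff₀ (by positivity) (by positivity)]
          have e : L ^ (C + 5) = L ^ (C + 3) * L ^ 2 := by ring
          rw [e]
          have h5 : (4 : ℝ) ≤ L ^ 2 := by nlinarith
          have h6 : 0 ≤ (X : ℝ) * L ^ (C + 3) := by positivity
          calc 2 * (X : ℝ) * (2 * L ^ (C + 3)) = (X * L ^ (C + 3)) * 4 := by ring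
            _ ≤ (X * L ^ (C + 3)) * L ^ 2 := mul_le_mul_of_nonneg_left h5 h6
            _ = _ := by ring
  -- one modulus and one class
  obtain ⟨W, hW⟩ : ∃ W : ℝ, W = I / L ^ (A + 3 * B + 1) := ⟨_, rfl⟩
  have hW0 : 0 ≤ W := by rw [hW]; positivity
  have key : ∀ q₀ a₀ : ℕ, 1 ≤ q₀ → (q₀ : ℝ) ≤ L ^ B → a₀ < q₀ →
      (((S.filter (fun i => ¬ Good2 C X (d i).toNat q₀ a₀)).card : ℕ) : ℝ) ≤ q₀ * W := by
    intro q₀ a₀ hq01 hq0B ha₀
    have : NeZero q₀ := ⟨by omega⟩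
    have hQ : NeZero (q₀ * q) := ⟨Nat.mul_ne_zero (by omega) (by omega)⟩
    obtain ⟨H, hH⟩ : ∃ H, H = S.filter (fun i => ¬ Good2 C X (d i).toNat q₀ a₀) := ⟨_, rfl⟩
    rw [← hH]
    have hq0r : (0 : ℝ) < q₀ := by exact_mod_cast hq01
    have hmem : ∀ i ∈ H, 1 ≤ d i ∧ (((d i).toNat : ℕ) : ℤ) = d i ∧ (d i).toNat ≤ X ∧
        (((d i).toNat : ℕ) : ℝ) ≤ X / L ^ (C + 4) ∧ 2 ∣ (d i).toNat ∧ (d i).toNat % q = b % q ∧
        Nat.Coprime a₀ q₀ ∧ Nat.Coprime (a₀ + (d i).toNat) q₀ ∧ ¬ Good2 C X (d i).toNat q₀ a₀ := by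
      intro i hi
      rw [hH, mem_filter] at hi
      obtain ⟨g1, g2, g3, g4, g5⟩ := hS i hi.1
      have g6 : (((d i).toNat : ℕ) : ℤ) = d i := Int.toNat_of_nonneg (by omega)
      have g7 : (((d i).toNat : ℕ) : ℝ) = (d i : ℝ) := by
        have : ((((d i).toNat : ℕ) : ℤ) : ℝ) = (d i : ℝ) := by rw [g6]
        exact_mod_cast this
      have h5 := hi.2
      have h6 : Nat.Coprime a₀ q₀ ∧ Nat.Coprime (a₀ + (d i).toNat) q₀ := by
        by_contra hc
        apply h5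
        intro k1 k2
        exact absurd ⟨k1, k2⟩ hc
      have g8 : (((d i).toNat : ℕ) : ℝ) ≤ X / L ^ (C + 4) := by rw [g7]; exact g2
      have g9 : (((d i).toNat : ℕ) : ℝ) ≤ X := g8.trans (div_le_self hX0.le hLV)
      exact ⟨g1, g6, by exact_mod_cast g9, g8, g3, g4, h6.1, h6.2, h5⟩
    have hbig : ∀ i ∈ H, ∃ j ∈ range (Tg + 1),
        t ≤ ‖cvd (res q₀ a₀ LA) (FF z r) (min (j * s) X) N (-(d i))‖ := by
      intro i hi
      obtain ⟨m1, m2, m3, m4, m5, m6, m7, m8, m9⟩ := hmem i hi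
      by_contra hcon
      push Not at hcon
      apply m9
      intro _ _ x hx2 hxX
      rw [← hLd]
      refine c2 (d i).toNat m4 z hzlo hzhi Tg hT1 (by linarith) q₀ a₀ hq01 hq0B m7 m8 m5 (by omega) ha₀ ?_ x hx2 hxX
      intro j hj
      have k1 := near (N := N) (h := (d i).toNat) (y := min (j * (X / Tg + 1)) X) z r q₀ a₀
        (by have := min_le_right (j * (X / Tg + 1)) X; omega)
      rw [← hLd'] at k1
      have k2 := hcon j hj
      rw [hs] at k2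
      rw [m2] at k1 ⊢
      have k3 : (X : ℝ) / L ^ (C + 3) = 2 * t := by rw [ht]; field_simp
      rw [k3]
      linarith
    -- the classes modulo `q₀ q`
    obtain ⟨S', hS'⟩ : ∃ S', S' = univ.filter (fun c : ZMod (q₀ * q) => ((c.val : ℕ) : ZMod q) = (b : ZMod q)) :=
      ⟨_, rfl⟩
    have hSc : (S'.card : ℝ) ≤ q₀ := by
      rw [hS']
      exact_mod_cast card_above q₀ q (b : ZMod q)
    have hmap : ∀ i ∈ H, (((d i).toNat : ℕ) : ZMod (q₀ * q)) ∈ S' := by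
      intro i hi
      obtain ⟨m1, m2, m3, m4, m5, m6, m7, m8, m9⟩ := hmem i hi
      rw [hS', mem_filter]
      refine ⟨mem_univ _, ?_⟩
      rw [ZMod.val_natCast, ZMod.natCast_eq_natCast_iff']
      rw [Nat.mod_mod_of_dvd _ (dvd_mul_left q q₀)]
      exact m6
    have hcard : H.card = ∑ c ∈ S', (H.filter (fun i => (((d i).toNat : ℕ) : ZMod (q₀ * q)) = c)).card :=
      card_eq_sum_card_fiberwise hmap
    have hcl : ∀ c ∈ S', ((H.filter (fun i => (((d i).toNat : ℕ) : ZMod (q₀ * q)) = c)).card : ℝ) ≤ W := by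
      intro c hc
      rcases (H.filter (fun i => (((d i).toNat : ℕ) : ZMod (q₀ * q)) = c)).eq_empty_or_nonempty with he | ⟨i₀, hi₀⟩
      · rw [he, card_empty, Nat.cast_zero]
        exact hW0
      rw [mem_filter] at hi₀
      obtain ⟨m1, m2, m3, m4, m5, m6, m7, m8, m9⟩ := hmem i₀ hi₀.1
      have hu : IsUnit (ZMod.castHom (dvd_mul_right q₀ q) (ZMod q₀) (-c) - (a₀ : ZMod q₀)) := by
        rw [map_neg, ← hi₀.2, map_natCast]
        have e : -((((d i₀).toNat : ℕ) : ZMod q₀)) - (a₀ : ZMod q₀) = -(((a₀ + (d i₀).toNat : ℕ) : ZMod q₀)) := by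
          push_cast
          ring
        rw [e]
        exact ((ZMod.isUnit_iff_coprime _ _).2 m8).neg
      have hg : (Nat.gcd (-c).val (q₀ * q) : ℝ) ≤ L' ^ (T + B) := by
        rw [gcd_neg_val]
        rw [hS', mem_filter] at hc
        have g1 := gcd_above (k := q₀) (q := q) hc.2
        rw [ZMod.val_natCast, ← Nat.gcd_rec, Nat.gcd_comm q b] at g1
        have g2 : ((Nat.gcd c.val (q₀ * q) : ℕ) : ℝ) ≤ (q₀ : ℝ) * (Nat.gcd b q : ℝ) := by
          exact_mod_cast g1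
        calc ((Nat.gcd c.val (q₀ * q) : ℕ) : ℝ) ≤ (q₀ : ℝ) * (Nat.gcd b q : ℝ) := g2
          _ ≤ L ^ B * L ^ T := by gcongr
          _ = L ^ (T + B) := by ring
          _ ≤ L' ^ (T + B) := pow_le_pow_left₀ hL0.le hL2 _
      have hqN : (((q₀ * q : ℕ) : ℕ) : ℝ) ≤ (N : ℝ) ^ (2 / 3 - ρ / 2) := by
        rw [Nat.cast_mul]
        calc (q₀ : ℝ) * q ≤ (X : ℝ) ^ (ρ / 2) * (X : ℝ) ^ (2 / 3 - ρ) := by
              gcongr
              exact hq0B.trans hLp
          _ = (X : ℝ) ^ (2 / 3 - ρ / 2) := by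
              rw [← Real.rpow_add hX0]
              congr 1
              ring
          _ ≤ (N : ℝ) ^ (2 / 3 - ρ / 2) := by
              apply Real.rpow_le_rpow hX0.le _ (by linarith)
              exact_mod_cast hXN
      have hms' := hms (q₀ * q) q₀ (dvd_mul_right q₀ q) hqN (hq0B.trans (pow_le_pow_left₀ hL0.le hL2 _)) a₀ (-c)
        hu hg
      have hQr : (0 : ℝ) < ((q₀ * q : ℕ) : ℝ) := by exact_mod_cast NeZero.pos (q₀ * q)
      obtain ⟨lam, hlam⟩ : ∃ lam : ℝ, lam = I / L ^ K := ⟨_, rfl⟩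
      obtain ⟨μ, hμ⟩ : ∃ μ : ℝ, μ = I * ((q₀ * q : ℕ) : ℝ) * L ^ M / (X : ℝ) ^ 2 := ⟨_, rfl⟩
      have hlam0 : 0 < lam := by rw [hlam]; positivity
      have hμ0 : 0 < μ := by rw [hμ]; positivity
      have hone := one_fam (N := N) (X := X) (Q := q₀ * q) (q₀ := q₀) (a₀ := a₀) (Tg := Tg) (s := s) (z := z)
        (r := r) (h := h) hh hXN c d (H.filter (fun i => (((d i).toNat : ℕ) : ZMod (q₀ * q)) = c))
        (R := (N : ℝ) ^ 3 / (((q₀ * q : ℕ) : ℝ) * L' ^ A')) (W := N * L' ^ 8) (t := t) hlam0 hμ0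
        (by
          intro i hi
          rw [mem_filter] at hi
          obtain ⟨n1, n2, n3, -⟩ := hmem i hi.1
          refine ⟨n1, ?_, ?_⟩
          · have : (((d i).toNat : ℕ) : ℤ) ≤ X := by exact_mod_cast n3
            omega
          · rw [← hi.2, ← n2]
            push_cast
            rfl)
        (hbF q₀ a₀ (by linarith) (by linarith)) hbG
        (fun y hy => hms' y N hy le_rfl)
        (fun i hi => hbig i (mem_filter.1 hi).1)
      obtain ⟨n, hn⟩ : ∃ n : ℝ, n = ((H.filter (fun i => (((d i).toNat : ℕ) : ZMod (q₀ * q)) = c)).card : ℝ) := ⟨_, rfl⟩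
      rw [← hn] at hone ⊢
      -- the three terms
      have t1 : lam * (N * L' ^ 8) ≤ I * X / L ^ P := by
        rw [hlam, hNr]
        calc I / L ^ K * (2 * X * L' ^ 8) ≤ I / L ^ K * (2 * X * (2 * L) ^ 8) := by gcongr
          _ = I * X / L ^ P * (512 / L ^ 8) := by
              have e1 : L ^ K = L ^ P * L ^ 8 * L ^ 8 := by rw [hK]; ring
              rw [e1]
              field_simp
              norm_num
          _ ≤ I * X / L ^ P * 1 := by
              apply mul_le_mul_of_nonneg_left _ (by positivity)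
              rw [div_le_one (by positivity)]
              calc (512 : ℝ) ≤ 1000 := by norm_num
                _ ≤ L := hL1000
                _ ≤ L ^ 8 := le_self_pow₀ hL1 (by norm_num)
          _ = _ := mul_one _
      have t2 : μ / 2 * ((N : ℝ) ^ 3 / (((q₀ * q : ℕ) : ℝ) * L' ^ A')) ≤ 4 * (I * X / L ^ P) := by
        rw [hμ, hNr]
        calc I * ((q₀ * q : ℕ) : ℝ) * L ^ M / (X : ℝ) ^ 2 / 2 * ((2 * X) ^ 3 / (((q₀ * q : ℕ) : ℝ) * L' ^ A')) ≤
              I * ((q₀ * q : ℕ) : ℝ) * L ^ M / (X : ℝ) ^ 2 / 2 * ((2 * X) ^ 3 / (((q₀ * q : ℕ) : ℝ) * L ^ A')) := by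
              gcongr
          _ = 4 * (I * X / L ^ P) := by
              have e1 : L ^ A' = L ^ M * L ^ P := by rw [hA']; ring
              have e2 : L ^ M ≠ 0 := by positivity
              rw [e1]
              generalize L ^ M = P1 at e2 ⊢
              field_simp
              ring
      have t3 : 1 / (2 * μ) * ((En h d : ℝ) / lam ^ (2 * h - 2)) ≤ I * X / L ^ P := by
        have g1 : (En h d : ℝ) ≤ L ^ C₀ * q * I ^ (2 * h) / X := by
          rw [le_div_iff₀ hX0]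
          exact hE
        have e1 : I ^ (2 * h) = I ^ (2 * h - 2) * I ^ 2 := by rw [← pow_add]; congr 1; omega
        have e2 : lam ^ (2 * h - 2) = I ^ (2 * h - 2) / L ^ (K * (2 * h - 2)) := by rw [hlam, div_pow, ← pow_mul]
        have e3 : L ^ M = L ^ C₀ * L ^ (K * (2 * h - 2)) * L ^ P := by rw [hM]; ring
        have hqQ : (q : ℝ) ≤ ((q₀ * q : ℕ) : ℝ) := by exact_mod_cast Nat.le_mul_of_pos_left q (by omega)
        calc 1 / (2 * μ) * ((En h d : ℝ) / lam ^ (2 * h - 2)) ≤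
              1 / (2 * μ) * ((L ^ C₀ * q * I ^ (2 * h) / X) / lam ^ (2 * h - 2)) := by gcongr
          _ ≤ 1 / (2 * μ) * ((L ^ C₀ * ((q₀ * q : ℕ) : ℝ) * I ^ (2 * h) / X) / lam ^ (2 * h - 2)) := by gcongr
          _ = (I * X / L ^ P) * (1 / 2) := by
              rw [e2, hμ, e1, e3]
              have k1 : L ^ (K * (2 * h - 2)) ≠ 0 := by positivity
              have k2 : L ^ C₀ ≠ 0 := by positivity
              have k3 : I ^ (2 * h - 2) ≠ 0 := by positivity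
              have k4 : L ^ P ≠ 0 := by positivity
              generalize L ^ (K * (2 * h - 2)) = P1 at k1 ⊢
              generalize L ^ C₀ = P2 at k2 ⊢
              generalize I ^ (2 * h - 2) = P3 at k3 ⊢
              generalize L ^ P = P4 at k4 ⊢
              field_simp
          _ ≤ _ := by
              have : 0 ≤ I * X / L ^ P := by positivity
              linarith
      have t4 : n * t ≤ L ^ (C + 5) * (6 * (I * X / L ^ P)) := by
        refine hone.trans ?_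
        have : 0 ≤ I * X / L ^ P := by positivity
        apply mul_le_mul hT2 (by linarith) _ (by positivity)
        have : 0 ≤ (N : ℝ) := Nat.cast_nonneg _
        positivity
      have t5 : L ^ (C + 5) * (6 * (I * X / L ^ P)) ≤ W * t := by
        rw [hW, ht]
        have e1 : L ^ P = L ^ (A + 3 * B + 1) * L ^ (C + 5) * L ^ (C + 3) * L ^ 11 := by rw [hP]; ring
        rw [e1]
        have k1 : L ^ (A + 3 * B + 1) ≠ 0 := by positivity
        have k2 : L ^ (C + 5) ≠ 0 := by positivity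
        have k3 : L ^ (C + 3) ≠ 0 := by positivity
        have e2 : L ^ (C + 5) * (6 * (I * X / (L ^ (A + 3 * B + 1) * L ^ (C + 5) * L ^ (C + 3) * L ^ 11))) =
            I / L ^ (A + 3 * B + 1) * (X / (2 * L ^ (C + 3))) * (12 / L ^ 11) := by
          generalize L ^ (A + 3 * B + 1) = P1 at k1 ⊢
          generalize L ^ (C + 5) = P2 at k2 ⊢
          generalize L ^ (C + 3) = P3 at k3 ⊢
          field_simp
          norm_num
        rw [e2]
        apply mul_le_of_le_one_right (by positivity)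
        rw [div_le_one (by positivity)]
        calc (12 : ℝ) ≤ 1000 := by norm_num
          _ ≤ L := hL1000
          _ ≤ L ^ 11 := le_self_pow₀ hL1 (by norm_num)
      exact le_of_mul_le_mul_right (t4.trans t5) ht0
    calc (H.card : ℝ) = ∑ c ∈ S', ((H.filter (fun i => (((d i).toNat : ℕ) : ZMod (q₀ * q)) = c)).card : ℝ) := by
          rw [hcard]
          push_cast
          rfl
      _ ≤ ∑ _c ∈ S', W := sum_le_sum hcl
      _ = S'.card * W := by rw [sum_const, nsmul_eq_mul]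
      _ ≤ q₀ * W := by gcongr
  -- all moduli and classes
  obtain ⟨Mm, hMm⟩ : ∃ Mm, Mm = ⌊L ^ B⌋₊ := ⟨_, rfl⟩
  have hMr : (Mm : ℝ) ≤ L ^ B := by rw [hMm]; exact Nat.floor_le (by positivity)
  have hsub : S ⊆ (Icc 1 Mm ×ˢ range Mm).biUnion
      (fun p => S.filter (fun i => p.2 < p.1 ∧ ¬ Good2 C X (d i).toNat p.1 p.2)) := by
    intro i hi
    obtain ⟨-, -, -, -, h5⟩ := hS i hi
    have h6 : ∃ q₀ a₀ : ℕ, 1 ≤ q₀ ∧ (q₀ : ℝ) ≤ L ^ B ∧ a₀ < q₀ ∧ ¬ Good2 C X (d i).toNat q₀ a₀ := by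
      by_contra hc
      push Not at hc
      apply h5
      apply good1_of
      rw [← hLd]
      exact fun q₀ a₀ k1 k2 k3 => hc q₀ a₀ k1 k2 k3
    obtain ⟨q₀, a₀, k1, k2, k3, k4⟩ := h6
    rw [mem_biUnion]
    have k5 : q₀ ≤ Mm := by rw [hMm]; exact Nat.le_floor k2
    refine ⟨(q₀, a₀), ?_, ?_⟩
    · rw [mem_product, mem_Icc, mem_range]
      exact ⟨⟨k1, k5⟩, by omega⟩
    · rw [mem_filter]
      exact ⟨hi, k3, k4⟩
  have htot : (S.card : ℝ) ≤ L ^ B * L ^ B * (L ^ B * W) := by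
    calc (S.card : ℝ) ≤ (((Icc 1 Mm ×ˢ range Mm).biUnion
          (fun p => S.filter (fun i => p.2 < p.1 ∧ ¬ Good2 C X (d i).toNat p.1 p.2))).card : ℝ) := by
          exact_mod_cast card_le_card hsub
      _ ≤ ∑ p ∈ Icc 1 Mm ×ˢ range Mm, ((S.filter
          (fun i => p.2 < p.1 ∧ ¬ Good2 C X (d i).toNat p.1 p.2)).card : ℝ) := by
          exact_mod_cast card_biUnion_le
      _ ≤ ∑ _p ∈ Icc 1 Mm ×ˢ range Mm, L ^ B * W := by
          refine sum_le_sum fun p hp => ?_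
          rw [mem_product, mem_Icc] at hp
          have hp1 : (p.1 : ℝ) ≤ L ^ B := le_trans (by exact_mod_cast hp.1.2) hMr
          by_cases hlt : p.2 < p.1
          · refine le_trans ?_ ((key p.1 p.2 hp.1.1 hp1 hlt).trans (mul_le_mul_of_nonneg_right hp1 hW0))
            exact_mod_cast card_le_card (by
              intro i hi
              rw [mem_filter] at hi ⊢
              exact ⟨hi.1, hi.2.2⟩)
          · have : S.filter (fun i => p.2 < p.1 ∧ ¬ Good2 C X (d i).toNat p.1 p.2) = ∅ := by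
              rw [filter_eq_empty_iff]
              intro i _ hc
              exact hlt hc.1
            rw [this, card_empty, Nat.cast_zero]
            positivity
      _ = (Mm : ℝ) * Mm * (L ^ B * W) := by
          rw [sum_const, card_product, Nat.card_Icc, card_range, nsmul_eq_mul, Nat.add_sub_cancel]
          push_cast
          ring
      _ ≤ L ^ B * L ^ B * (L ^ B * W) := by gcongr
  refine htot.trans ?_
  rw [hW]
  have e3 : L ^ (A + 3 * B + 1) = L ^ A * L ^ B * L ^ B * L ^ B * L := by ring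
  rw [e3]
  have hA0 : L ^ A ≠ 0 := by positivity
  have hB0 : L ^ B ≠ 0 := by positivity
  have e2 : L ^ B * L ^ B * (L ^ B * (I / (L ^ A * L ^ B * L ^ B * L ^ B * L))) = I / L ^ A * (1 / L) := by
    generalize L ^ A = P1 at hA0 ⊢
    generalize L ^ B = P2 at hB0 ⊢
    field_simp
  rw [e2]
  apply mul_le_of_le_one_right (by positivity)
  rw [div_le_one hL0]
  exact hL1

end Pool.Agent.H96.ED
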