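import Pool.Agent.H96.ED.A
import Pool.Graph.R_seed8.R460.GQ.Conv

set_option autoImplicit false

/-! Prime pairs in progressions: families of differences of small energy in the residue classes of every modulus,
real `x`, windows. -/

namespace Pool.Agent.H96.ED

open Finset
open Pool.Agent.TH935.GF (En)
open Pool.Agent.R460.GS (mod_iff' gcd_toNat real_log)
open Pool.Agent.R460.GQ (Holds Good1 main pairs errQ_all)

theorem gd_real (ρ : ℝ) (hρ : 0 < ρ) (A B C T C₀ h : ℕ) (hh : 1 ≤ h) :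
    ∃ x₀ : ℝ, ∀ x : ℝ, x₀ ≤ x → ∀ m : ℕ, 1 ≤ m → (m : ℝ) ≤ x ^ (2 / 3 - ρ) → ∀ b : ℤ,
      (Int.gcd b m : ℝ) ≤ Real.log x ^ T → ∀ (ι : Type) [Fintype ι] (d : ι → ℤ),
      (En h d : ℝ) * x ≤ Real.log x ^ C₀ * m * (Fintype.card ι : ℝ) ^ (2 * h) →
      ∀ S : Finset ι, (∀ i ∈ S, 1 ≤ d i ∧ (d i : ℝ) ≤ x / Real.log x ^ (C + 6) ∧ Even (d i).toNat ∧
        d i ≡ b [ZMOD m] ∧ ¬ Holds B C x (d i).toNat) →
      (S.card : ℝ) ≤ Fintype.card ι / Real.log x ^ A := by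
  classical
  obtain ⟨ρ', hρ'⟩ : ∃ ρ', ρ' = min ρ (1 / 3) := ⟨_, rfl⟩
  have hρ0 : 0 < ρ' := by rw [hρ']; exact lt_min hρ (by norm_num)
  obtain ⟨X₀, h0⟩ := gd_main errQ_all ρ' hρ0 (by rw [hρ']; exact min_le_right _ _) A B (C + 1) T (C₀ + 1) h hh
  obtain ⟨x₁, h1⟩ := Filter.eventually_atTop.1 (real_log 1 (s := 1) one_pos (2 ^ (C + 5) + 100))
  refine ⟨max (max x₁ X₀) 4, fun x hx m hm1 hm b hb ι _ d hE S hS => ?_⟩
  obtain ⟨hL, -⟩ := h1 x ((le_max_left _ _).trans ((le_max_left _ _).trans hx))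
  have hxX₀ : (X₀ : ℝ) ≤ x := (le_max_right _ _).trans ((le_max_left _ _).trans hx)
  have hx4 : 4 ≤ x := (le_max_right _ _).trans hx
  have hx0 : 0 < x := by linarith
  obtain ⟨X, hX⟩ : ∃ X, X = ⌈x⌉₊ := ⟨_, rfl⟩
  have hxX : x ≤ X := by rw [hX]; exact Nat.le_ceil x
  have hXx : (X : ℝ) ≤ x + 1 := by rw [hX]; exact (Nat.ceil_lt_add_one hx0.le).le
  have hX2 : (X : ℝ) ≤ 2 * x := by linarith
  have hXX₀ : X₀ ≤ X := by exact_mod_cast hxX₀.trans hxX
  have hX0 : (0 : ℝ) < X := by linarith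
  have hLX : Real.log x ≤ Real.log X := Real.log_le_log hx0 hxX
  have hLX2 : Real.log X ≤ 2 * Real.log x := by
    have h2 : Real.log X ≤ Real.log (2 * x) := Real.log_le_log hX0 hX2
    rw [Real.log_mul (by norm_num) hx0.ne'] at h2
    have := Real.log_two_lt_d9
    have h3 : (0 : ℝ) < 2 ^ (C + 5) := by positivity
    linarith
  obtain ⟨l, hl⟩ : ∃ l, l = Real.log x := ⟨_, rfl⟩
  obtain ⟨L, hLd⟩ : ∃ L, L = Real.log (X : ℝ) := ⟨_, rfl⟩
  have hm0 : (0 : ℝ) < m := by exact_mod_cast hm1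
  have hp5 : (0 : ℝ) < 2 ^ (C + 5) := by positivity
  have hl1 : 1 ≤ l := by rw [hl]; linarith
  have hl0 : 0 < l := by linarith
  have hmX : (m : ℝ) ≤ (X : ℝ) ^ (2 / 3 - ρ') := by
    refine hm.trans ?_
    have e1 : x ^ (2 / 3 - ρ) ≤ x ^ (2 / 3 - ρ') :=
      Real.rpow_le_rpow_of_exponent_le (by linarith) (by
        have : ρ' ≤ ρ := by rw [hρ']; exact min_le_left _ _
        linarith)
    refine e1.trans (Real.rpow_le_rpow hx0.le hxX ?_)
    have : ρ' ≤ 1 / 3 := by rw [hρ']; exact min_le_right _ _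
    linarith
  have hgcd : (Nat.gcd (b % (m : ℤ)).toNat m : ℝ) ≤ Real.log X ^ T := by
    rw [gcd_toNat m b hm1]
    exact hb.trans (pow_le_pow_left₀ (by linarith) hLX _)
  have hmain := h0 X hXX₀ m hm1 hmX (b % (m : ℤ)).toNat hgcd ι d
  rw [← hl] at hL hLX hLX2 hE hS ⊢
  rw [← hLd] at hLX hLX2 hmain
  have hL0 : 0 < L := by linarith
  have hcc : (0 : ℝ) ≤ (Fintype.card ι : ℝ) ^ (2 * h) := by positivity
  have hE' : (En h d : ℝ) * X ≤ L ^ (C₀ + 1) * m * (Fintype.card ι : ℝ) ^ (2 * h) := by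
    calc (En h d : ℝ) * X ≤ En h d * (2 * x) := by gcongr
      _ = 2 * (En h d * x) := by ring
      _ ≤ 2 * (l ^ C₀ * m * (Fintype.card ι : ℝ) ^ (2 * h)) := by gcongr
      _ ≤ l * (l ^ C₀ * m * (Fintype.card ι : ℝ) ^ (2 * h)) := by
          have : 2 ≤ l := by linarith
          gcongr
      _ = l ^ (C₀ + 1) * m * (Fintype.card ι : ℝ) ^ (2 * h) := by ring
      _ ≤ L ^ (C₀ + 1) * m * (Fintype.card ι : ℝ) ^ (2 * h) := by gcongr
  have hfin := hmain hE' S ?_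
  · refine hfin.trans ?_
    gcongr
  intro i hi
  obtain ⟨d1, d2, d3, d4, d5⟩ := hS i hi
  have hdn : (((d i).toNat : ℕ) : ℤ) = d i := Int.toNat_of_nonneg (by omega)
  have k1 : (d i : ℝ) ≤ X / L ^ (C + 1 + 4) := by
    refine d2.trans ?_
    rw [div_le_div_iff₀ (by positivity) (by positivity)]
    have k2 : L ^ (C + 1 + 4) ≤ l ^ (C + 6) := by
      calc L ^ (C + 1 + 4) ≤ (2 * l) ^ (C + 5) := by
            rw [show C + 1 + 4 = C + 5 by ring]
            exact pow_le_pow_left₀ hL0.le hLX2 _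
        _ = 2 ^ (C + 5) * l ^ (C + 5) := mul_pow _ _ _
        _ ≤ l * l ^ (C + 5) := mul_le_mul_of_nonneg_right (by linarith) (by positivity)
        _ = l ^ (C + 6) := by ring
    exact mul_le_mul hxX k2 (by positivity) hX0.le
  refine ⟨d1, k1, d3.two_dvd, ?_, ?_⟩
  · rw [← hdn] at d4
    exact mod_iff' (d i).toNat m b hm1 d4
  · intro hgood
    apply d5
    intro q a hq1 hq2 ha had y hy2 hyx
    have h2 := hgood q a hq1 (hq2.trans (by
      rw [← hl, ← hLd]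
      exact pow_le_pow_left₀ hl0.le hLX _)) ha had y hy2 (hyx.trans hxX)
    have e1 : main (d i).toNat y q = Pool.Agent.H560R3.GB.sing (d i).toNat / Pool.Agent.W93.PP.Cnt q (d i).toNat *
        Pool.Agent.W93.PP.Li2 y := by
      unfold main Pool.Agent.H560R3.GB.sing Pool.Agent.W93.PP.Cnt Pool.Agent.W93.PP.Li2
      ring
    have e2 : pairs (d i).toNat y a q = Pool.Agent.W93.PP.pc (d i).toNat y a q := rfl
    rw [e1, e2]
    refine h2.trans ?_
    rw [← hLd, ← hl, div_le_div_iff₀ (by positivity) (by positivity)]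
    calc (X : ℝ) * l ^ C ≤ (2 * x) * l ^ C := mul_le_mul_of_nonneg_right hX2 (by positivity)
      _ ≤ x * (l * l ^ C) := by
          have k3 : 2 ≤ l := by linarith
          have k4 : 0 ≤ x * l ^ C := by positivity
          nlinarith
      _ = x * l ^ (C + 1) := by ring
      _ ≤ x * L ^ (C + 1) := by
          apply mul_le_mul_of_nonneg_left _ hx0.le
          exact pow_le_pow_left₀ hl0.le hLX _

/-- There is an even difference `d` near `v` with small `gcd(d, m)` for which the estimate fails. -/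
def BadD (B C T : ℕ) (x : ℝ) (m : ℕ) (v : ℤ) : Prop :=
  ∃ d : ℕ, 0 < d ∧ (d : ℝ) ≤ x / Real.log x ^ (C + 6) ∧ Even d ∧ |(d : ℝ) - v| ≤ Real.log x ^ T ∧
    (Nat.gcd d m : ℝ) ≤ Real.log x ^ T ∧ ¬ Holds B C x d

open Classical in
theorem gd_win (ρ : ℝ) (hρ : 0 < ρ) (A B C T C₀ h : ℕ) :
    ∃ x₀ : ℝ, ∀ x : ℝ, x₀ ≤ x → ∀ m : ℕ, 1 ≤ m → (m : ℝ) ≤ x ^ (2 / 3 - ρ) → ∀ (b : ℤ) (ι : Type) [Fintype ι] (s : ι → ℤ),
      (En h s : ℝ) * x ≤ Real.log x ^ C₀ * m * (Fintype.card ι : ℝ) ^ (2 * h) →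
      (((univ : Finset ι).filter (fun i => BadD B C T x m (b + m * s i))).card : ℝ) ≤
        Fintype.card ι / Real.log x ^ A := by
  obtain ⟨x₀, h0⟩ := gd_real ρ hρ (A + T + 1) B C T C₀ (h + 1) (by omega)
  obtain ⟨x₁, h1⟩ := Filter.eventually_atTop.1 (real_log 1 (s := 1) one_pos 3)
  refine ⟨max (max x₀ x₁) 1, fun x hx m hm1 hm b ι _ s hE => ?_⟩
  obtain ⟨hL, -⟩ := h1 x ((le_max_right _ _).trans ((le_max_left _ _).trans hx))
  have h2 := h0 x ((le_max_left _ _).trans ((le_max_left _ _).trans hx)) m hm1 hm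
  have hx0 : 0 < x := lt_of_lt_of_le one_pos ((le_max_right _ _).trans hx)
  obtain ⟨l, hl⟩ : ∃ l, l = Real.log x := ⟨_, rfl⟩
  rw [← hl] at hL hE h2 ⊢
  have hl0 : 0 < l := by linarith
  have hl1 : 1 ≤ l := by linarith
  obtain ⟨W, hW⟩ : ∃ W : ℕ, W = ⌊l ^ T⌋₊ := ⟨_, rfl⟩
  have hWle : (W : ℝ) ≤ l ^ T := by rw [hW]; exact Nat.floor_le (by positivity)
  have hE1 : (En (h + 1) s : ℝ) * x ≤ l ^ C₀ * m * (Fintype.card ι : ℝ) ^ (2 * (h + 1)) := by
    have h3 : (En (h + 1) s : ℝ) ≤ (Fintype.card ι : ℝ) ^ 2 * En h s := by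
      exact_mod_cast Pool.Agent.H96.PR.En_succ h s
    calc (En (h + 1) s : ℝ) * x ≤ (Fintype.card ι : ℝ) ^ 2 * En h s * x := by gcongr
      _ = (Fintype.card ι : ℝ) ^ 2 * (En h s * x) := by ring
      _ ≤ (Fintype.card ι : ℝ) ^ 2 * (l ^ C₀ * m * (Fintype.card ι : ℝ) ^ (2 * h)) := by gcongr
      _ = _ := by rw [mul_add, pow_add]; ring
  obtain ⟨S, hS⟩ : ∃ S : ℤ → Finset ι, S = fun δ => (univ : Finset ι).filter (fun i => 1 ≤ b + m * s i + δ ∧
    ((b + m * s i + δ : ℤ) : ℝ) ≤ x / l ^ (C + 6) ∧ Even (b + m * s i + δ).toNat ∧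
    (Int.gcd (b + m * s i + δ) m : ℝ) ≤ l ^ T ∧ ¬ Holds B C x (b + m * s i + δ).toNat) := ⟨_, rfl⟩
  have hcov : (univ : Finset ι).filter (fun i => BadD B C T x m (b + m * s i)) ⊆ (Icc (-(W : ℤ)) W).biUnion S := by
    intro i hi
    rw [mem_filter] at hi
    obtain ⟨d, d1, d2, d3, d4, d5, d6⟩ := hi.2
    rw [← hl] at d2 d4 d5
    rw [mem_biUnion]
    refine ⟨(d : ℤ) - (b + m * s i), ?_, ?_⟩
    · rw [mem_Icc, ← abs_le]
      have h4 : (((d : ℤ) - (b + m * s i)).natAbs : ℝ) ≤ l ^ T := by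
        rw [Nat.cast_natAbs, Int.cast_abs]
        push_cast at d4 ⊢
        exact d4
      have h5 : ((d : ℤ) - (b + m * s i)).natAbs ≤ W := by rw [hW]; exact Nat.le_floor h4
      rw [Int.abs_eq_natAbs]
      exact_mod_cast h5
    · rw [hS, mem_filter]
      have e1 : b + m * s i + ((d : ℤ) - (b + m * s i)) = d := by ring
      rw [e1, Int.toNat_natCast]
      refine ⟨mem_univ _, by exact_mod_cast d1, by push_cast; exact d2, d3, ?_, d6⟩
      rw [Int.gcd_natCast_natCast]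
      exact d5
  have hj : ∀ δ ∈ Icc (-(W : ℤ)) W, ((S δ).card : ℝ) ≤ Fintype.card ι / l ^ (A + T + 1) := by
    intro δ _
    rcases (S δ).eq_empty_or_nonempty with he | ⟨i₀, hi₀⟩
    · rw [he, card_empty, Nat.cast_zero]
      positivity
    have hmemS : ∀ i ∈ S δ, 1 ≤ b + m * s i + δ ∧
      ((b + m * s i + δ : ℤ) : ℝ) ≤ x / l ^ (C + 6) ∧ Even (b + m * s i + δ).toNat ∧
      (Int.gcd (b + m * s i + δ) m : ℝ) ≤ l ^ T ∧ ¬ Holds B C x (b + m * s i + δ).toNat := by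
      intro i hi
      rw [hS, mem_filter] at hi
      exact hi.2
    have hg0 := (hmemS i₀ hi₀).2.2.2.1
    have hg : (Int.gcd (b + δ) m : ℝ) ≤ l ^ T := by
      have e1 : Int.gcd (b + m * s i₀ + δ) m = Int.gcd (b + δ) m := by
        have e2 : b + m * s i₀ + δ = (b + δ) + m * s i₀ := by ring
        rw [e2]
        apply Nat.dvd_antisymm
        · apply Int.dvd_gcd
          · have g1 : ((Int.gcd (b + δ + m * s i₀) m : ℕ) : ℤ) ∣ (b + δ + m * s i₀) := Int.gcd_dvd_left _ _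
            have g2 : ((Int.gcd (b + δ + m * s i₀) m : ℕ) : ℤ) ∣ (m : ℤ) := Int.gcd_dvd_right _ _
            exact (dvd_add_left (g2.mul_right _)).1 g1
          · exact Int.gcd_dvd_right _ _
        · apply Int.dvd_gcd
          · have g1 : ((Int.gcd (b + δ) m : ℕ) : ℤ) ∣ (b + δ) := Int.gcd_dvd_left _ _
            have g2 : ((Int.gcd (b + δ) m : ℕ) : ℤ) ∣ (m : ℤ) := Int.gcd_dvd_right _ _
            exact dvd_add g1 (g2.mul_right _)
          · exact Int.gcd_dvd_right _ _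
      rw [← e1]
      exact hg0
    have hen : En (h + 1) (fun i => b + m * s i + δ) = En (h + 1) s := by
      have e1 : (fun i => b + m * s i + δ) = (fun i => (m * s i) + (b + δ)) := by
        funext i
        ring
      rw [e1, Pool.Agent.H96.PR.En_shift]
      unfold En
      congr 1
      have hm0 : (m : ℤ) ≠ 0 := by
        have : 0 < m := by omega
        exact_mod_cast this.ne'
      simp only [← mul_sum, mul_right_inj' hm0]
    refine h2 (b + δ) hg ι (fun i => b + m * s i + δ) (by rw [hen]; exact hE1) (S δ) ?_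
    intro i hi
    obtain ⟨g1, g2, g3, g4, g5⟩ := hmemS i hi
    refine ⟨g1, g2, g3, ?_, g5⟩
    have e2 : b + m * s i + δ = (b + δ) + m * s i := by ring
    rw [e2]
    exact (Int.modEq_iff_dvd.2 ⟨-(s i), by ring⟩)
  calc (((univ : Finset ι).filter (fun i => BadD B C T x m (b + m * s i))).card : ℝ) ≤
        (((Icc (-(W : ℤ)) W).biUnion S).card : ℝ) := by exact_mod_cast card_le_card hcov
    _ ≤ ∑ δ ∈ Icc (-(W : ℤ)) W, ((S δ).card : ℝ) := by exact_mod_cast card_biUnion_le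
    _ ≤ ∑ _δ ∈ Icc (-(W : ℤ)) W, (Fintype.card ι / l ^ (A + T + 1) : ℝ) := sum_le_sum hj
    _ = (2 * W + 1) * (Fintype.card ι / l ^ (A + T + 1) : ℝ) := by
        rw [sum_const, nsmul_eq_mul, Int.card_Icc]
        have : ((W : ℤ) + 1 - -(W : ℤ)).toNat = 2 * W + 1 := by omega
        rw [this]
        push_cast
        ring
    _ ≤ (l ^ T * l) * (Fintype.card ι / l ^ (A + T + 1) : ℝ) := by
        have h3 : (2 * (W : ℝ) + 1) ≤ l ^ T * l := by
          have h4 : 1 ≤ l ^ T := one_le_pow₀ hl1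
          nlinarith
        gcongr
    _ = _ := by
        rw [pow_succ, pow_add]
        field_simp

end Pool.Agent.H96.ED
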