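import Pool.Agent.H96.ED.B
import Pool.Agent.H96.PR.H

set_option autoImplicit false

/-! Families of small energy at the scale `x / m`: perturbed products, polynomials. -/

namespace Pool.Agent.H96.ED

open Finset
open Pool.Agent.TH935.GF (En)
open Pool.Agent.R460.GS (real_log)

/-- perturbed products at the scale `x / m` -/
theorem energy_xm (k C₀ B₀ h : ℕ) (δ : ℝ) (hδ : 0 < δ) :
    ∃ H C' : ℕ, ∃ x₀ : ℝ, ∀ x : ℝ, x₀ ≤ x → ∀ m : ℕ, 1 ≤ m → (m : ℝ) ≤ x ^ (2 / 3 : ℝ) →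
    ∀ (X : Fin (k + 2) → Type) [∀ i, Fintype (X i)] (a : ∀ i, X i → ℤ) (M : Fin (k + 2) → ℕ) (f : Fin (k + 2) → (∀ i, X i) → ℤ),
    (∀ i, x ^ δ ≤ M i ∧ (M i : ℝ) ≤ x ^ B₀) → (∀ i z, |a i z| ≤ M i) →
    (∀ i, (En h (a i) : ℝ) * M i ≤ Real.log x ^ C₀ * (Fintype.card (X i) : ℝ) ^ (2 * h)) →
    x ≤ Real.log x ^ C₀ * m * ∏ i, (M i : ℝ) →
    (∀ s z z', (∀ t, t ≠ s → z t = z' t) → f s z = f s z') →
    (En H (fun z : ∀ i, X i => ∏ i, a i (z i) + ∑ s, f s z) : ℝ) * x ≤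
      Real.log x ^ C' * m * (Fintype.card (∀ i, X i) : ℝ) ^ (2 * H) := by
  obtain ⟨H, C', N₁, hH, h1⟩ := Pool.Agent.H96.PR.energy_main0 h k (C₀ + 1) (3 * B₀) (δ / 2) (by positivity)
  obtain ⟨N₂, h2⟩ := Pool.Agent.H373R2.T7.ev_L' (2 * 3 ^ C₀)
  obtain ⟨x₁, h3⟩ := Filter.eventually_atTop.1 (real_log 1 (s := 1) one_pos (2 ^ C' + 2))
  obtain ⟨Z, hZ⟩ : ∃ Z : ℕ, Z = N₁ + N₂ + 3 := ⟨_, rfl⟩
  refine ⟨H, C' + 1, max (max x₁ ((Z : ℝ) ^ 3)) 8, fun x hx m hm1 hm X _ a M f hM ha hE hNM hf => ?_⟩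
  obtain ⟨hL, -⟩ := h3 x ((le_max_left _ _).trans ((le_max_left _ _).trans hx))
  have hxZ : (Z : ℝ) ^ 3 ≤ x := (le_max_right _ _).trans ((le_max_left _ _).trans hx)
  have hx8 : 8 ≤ x := (le_max_right _ _).trans hx
  have hx0 : 0 < x := by linarith
  have hm0 : (0 : ℝ) < m := by exact_mod_cast hm1
  obtain ⟨N, hN⟩ : ∃ N, N = ⌈x / m⌉₊ := ⟨_, rfl⟩
  have hNlo : x / m ≤ N := by rw [hN]; exact Nat.le_ceil _
  have hNhi : (N : ℝ) ≤ x / m + 1 := by rw [hN]; exact (Nat.ceil_lt_add_one (by positivity)).le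
  have hx3 : x ^ (1 / 3 : ℝ) ≤ N := by
    refine le_trans ?_ hNlo
    rw [le_div_iff₀ hm0]
    calc x ^ (1 / 3 : ℝ) * m ≤ x ^ (1 / 3 : ℝ) * x ^ (2 / 3 : ℝ) := by gcongr
      _ = x := by rw [← Real.rpow_add hx0]; norm_num
  have hxN3 : x ≤ (N : ℝ) ^ 3 := by
    calc x = (x ^ (1 / 3 : ℝ)) ^ 3 := by
          rw [← Real.rpow_natCast, ← Real.rpow_mul hx0.le]
          norm_num
      _ ≤ (N : ℝ) ^ 3 := by gcongr
  have hZN : Z ≤ N := by
    have : (Z : ℝ) ≤ N := by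
      have h5 : (Z : ℝ) ^ 3 ≤ (N : ℝ) ^ 3 := hxZ.trans hxN3
      exact le_of_pow_le_pow_left₀ (by norm_num) (Nat.cast_nonneg _) h5
    exact_mod_cast this
  have hN2 : 2 ≤ N := by omega
  have hN0 : (0 : ℝ) < N := by exact_mod_cast (by omega : 0 < N)
  have hxm : 1 ≤ x / m := by
    rw [le_div_iff₀ hm0, one_mul]
    refine hm.trans ?_
    calc x ^ (2 / 3 : ℝ) ≤ x ^ (1 : ℝ) := Real.rpow_le_rpow_of_exponent_le (by linarith) (by norm_num)
      _ = x := Real.rpow_one _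
  have hNx : (N : ℝ) ≤ 2 * x := by
    have h5 : x / m ≤ x := div_le_self hx0.le (by exact_mod_cast hm1)
    linarith
  have hlogN := h2 N (by omega)
  obtain ⟨l, hl⟩ : ∃ l, l = Real.log x := ⟨_, rfl⟩
  obtain ⟨L, hLd⟩ : ∃ L, L = Real.log (N : ℝ) := ⟨_, rfl⟩
  have hp := h1 N (by omega) X a M f
  have hlL : l ≤ 3 * L := by
    rw [hl, hLd]
    calc Real.log x ≤ Real.log ((N : ℝ) ^ 3) := Real.log_le_log hx0 hxN3
      _ = 3 * Real.log N := by rw [Real.log_pow]; norm_num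
  have hLl : L ≤ 2 * l := by
    rw [hl, hLd]
    calc Real.log N ≤ Real.log (2 * x) := Real.log_le_log hN0 hNx
      _ = Real.log 2 + Real.log x := Real.log_mul (by norm_num) hx0.ne'
      _ ≤ 2 * Real.log x := by
          have := Real.log_two_lt_d9
          have h5 : (0 : ℝ) < 2 ^ C' := by positivity
          linarith
  rw [← hl] at hL hE hNM ⊢
  rw [← hLd] at hlogN hp
  have h3C : (0 : ℝ) < 3 ^ C₀ := by positivity
  have hL0 : 0 < L := by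
    push_cast at hlogN
    linarith
  have hl0 : 0 < l := by
    have h5 : (0 : ℝ) < 2 ^ C' := by positivity
    linarith
  have hpow : 2 * l ^ C₀ ≤ L ^ (C₀ + 1) := by
    push_cast at hlogN
    calc 2 * l ^ C₀ ≤ 2 * (3 * L) ^ C₀ := by gcongr
      _ = (2 * 3 ^ C₀) * L ^ C₀ := by rw [mul_pow]; ring
      _ ≤ L * L ^ C₀ := by gcongr
      _ = _ := by ring
  have hpow1 : l ^ C₀ ≤ L ^ (C₀ + 1) := by
    have : 0 ≤ l ^ C₀ := by positivity
    linarith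
  have key := hp ?_ ha ?_ ?_ hf
  · have e1 : L ^ C' ≤ l ^ (C' + 1) := by
      calc L ^ C' ≤ (2 * l) ^ C' := by gcongr
        _ = 2 ^ C' * l ^ C' := mul_pow _ _ _
        _ ≤ l * l ^ C' := by
            have : (2 : ℝ) ^ C' ≤ l := by linarith
            gcongr
        _ = _ := by ring
    have hxNm : x ≤ N * m := by
      rw [div_le_iff₀ hm0] at hNlo
      exact hNlo
    calc (En H (fun z : ∀ i, X i => ∏ i, a i (z i) + ∑ s, f s z) : ℝ) * x ≤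
          En H (fun z : ∀ i, X i => ∏ i, a i (z i) + ∑ s, f s z) * (N * m) := by gcongr
      _ = (En H (fun z : ∀ i, X i => ∏ i, a i (z i) + ∑ s, f s z) * N) * m := by ring
      _ ≤ (L ^ C' * (Fintype.card (∀ i, X i) : ℝ) ^ (2 * H)) * m := by gcongr
      _ ≤ (l ^ (C' + 1) * (Fintype.card (∀ i, X i) : ℝ) ^ (2 * H)) * m := by gcongr
      _ = _ := by ring
  · intro i
    obtain ⟨g1, g2⟩ := hM i
    constructor
    · refine le_trans ?_ g1
      calc (N : ℝ) ^ (δ / 2) ≤ (x ^ 2) ^ (δ / 2) := by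
            apply Real.rpow_le_rpow hN0.le _ (by positivity)
            nlinarith
        _ = x ^ δ := by
            rw [← Real.rpow_natCast, ← Real.rpow_mul hx0.le]
            congr 1
            push_cast
            ring
    · have : (M i : ℝ) ≤ (N : ℝ) ^ (3 * B₀) := by
        calc (M i : ℝ) ≤ x ^ B₀ := g2
          _ ≤ ((N : ℝ) ^ 3) ^ B₀ := by gcongr
          _ = _ := by rw [← pow_mul]
      exact_mod_cast this
  · intro i
    refine (hE i).trans ?_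
    gcongr
  · have hP0 : 0 ≤ ∏ i, (M i : ℝ) := prod_nonneg fun _ _ => Nat.cast_nonneg _
    calc (N : ℝ) ≤ 2 * (x / m) := by linarith
      _ ≤ 2 * (l ^ C₀ * ∏ i, (M i : ℝ)) := by
          gcongr
          rw [div_le_iff₀ hm0]
          linarith
      _ = (2 * l ^ C₀) * ∏ i, (M i : ℝ) := by ring
      _ ≤ _ := by gcongr

/-- polynomials at the scale `x / m` -/
theorem energy_poly_xm (C₀ : ℕ) (g : Polynomial ℤ) (hg : 1 ≤ g.natDegree) :
    ∃ H C' : ℕ, ∃ x₀ : ℝ, ∀ x : ℝ, x₀ ≤ x → ∀ m : ℕ, ∀ (Y : ℕ) (D : Finset ℕ), 1 ≤ Y → D ⊆ Icc 1 Y →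
      (Y : ℝ) ≤ Real.log x ^ C₀ * D.card → x ≤ Real.log x ^ C₀ * m * (Y : ℝ) ^ g.natDegree →
      (En H (fun n : {n // n ∈ D} => g.eval ((n : ℕ) : ℤ)) : ℝ) * x ≤
        Real.log x ^ C' * m * (Fintype.card {n // n ∈ D} : ℝ) ^ (2 * H) := by
  obtain ⟨p, c, hc, hp⟩ := Pool.Agent.TH823.Fam.energy_poly' g hg
  obtain ⟨x₁, h3⟩ := Filter.eventually_atTop.1 (real_log 1 (s := 1) one_pos (c + 1))
  refine ⟨p, C₀ + C₀ * (2 * p) + 1, max x₁ 0, fun x hx m Y D hY hD hYD hx2 => ?_⟩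
  obtain ⟨hL, -⟩ := h3 x ((le_max_left _ _).trans hx)
  have hx0 : 0 ≤ x := (le_max_right _ _).trans hx
  obtain ⟨l, hl⟩ : ∃ l, l = Real.log x := ⟨_, rfl⟩
  rw [← hl] at hL hYD hx2 ⊢
  have hl0 : 0 < l := by linarith
  have h5 : (En p (fun n : {n // n ∈ D} => g.eval ((n : ℕ) : ℤ)) : ℝ) ≤
      Pool.Agent.H373R2.T7.energy p Y (fun n => g.eval (n : ℤ)) := by
    exact_mod_cast Pool.Agent.H96.PR.energy_sub p Y (fun n => g.eval (n : ℤ)) D hD
  have h7 := hp Y hY 0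
  simp only [zero_add] at h7
  have hY0 : (0 : ℝ) ≤ Y := Nat.cast_nonneg _
  rw [Fintype.card_coe]
  calc (En p (fun n : {n // n ∈ D} => g.eval ((n : ℕ) : ℤ)) : ℝ) * x ≤
        Pool.Agent.H373R2.T7.energy p Y (fun n => g.eval (n : ℤ)) * (l ^ C₀ * m * (Y : ℝ) ^ g.natDegree) := by
        exact mul_le_mul h5 hx2 hx0 (Nat.cast_nonneg _)
    _ = l ^ C₀ * m * (Pool.Agent.H373R2.T7.energy p Y (fun n => g.eval (n : ℤ)) * (Y : ℝ) ^ g.natDegree) := by ring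
    _ ≤ l ^ C₀ * m * (c * (Y : ℝ) ^ (2 * p)) := by gcongr
    _ ≤ l ^ C₀ * m * (l * (l ^ C₀ * D.card) ^ (2 * p)) := by
        have : c ≤ l := by linarith
        gcongr
    _ = _ := by
        rw [mul_pow, ← pow_mul]
        ring

end Pool.Agent.H96.ED
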